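import Pool.Agent.Lib.MP_e62a5f_gt.Final

set_option autoImplicit false

open TopologicalSpace

namespace Pool.Agent.Results.MP_e62a5f_gt.HausdorffContinuity

/-- The similarity matrix `(exp (-‖x - y‖))` of a finite set of points. -/
noncomputable def simMatrix {U : Type} [NormedAddCommGroup U] (X : Finset U) :
    Matrix X X ℝ :=
  Matrix.of fun x y => Real.exp (-‖(x : U) - (y : U)‖)

/-- `U` is a positive definite normed space: the similarity matrix of every finite set of points is
positive definite. -/
def IsPosDef (U : Type) [NormedAddCommGroup U] : Prop :=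
  ∀ X : Finset U, (simMatrix X).PosDef

/-- The space of nonempty finite subsets of `U`, as a subspace of the metric space of nonempty
compact subsets with the Hausdorff distance. -/
def FinSets (U : Type) [NormedAddCommGroup U] : Type :=
  {K : NonemptyCompacts U // (K : Set U).Finite}

noncomputable instance (U : Type) [NormedAddCommGroup U] : MetricSpace (FinSets U) :=
  inferInstanceAs (MetricSpace {K : NonemptyCompacts U // (K : Set U).Finite})

open Classical in
/-- The magnitude of a nonempty finite set: the sum of all entries of the inverse of the similarity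
matrix. -/
noncomputable def mag {U : Type} [NormedAddCommGroup U] (K : FinSets U) : ℝ :=
  ∑ i, ∑ j, (simMatrix K.2.toFinset)⁻¹ i j

/-- In every finite-dimensional positive definite normed space the magnitude is a continuous
function on the space of nonempty finite subsets with the Hausdorff distance. -/
theorem result (U : Type) [NormedAddCommGroup U] [NormedSpace ℝ U] [FiniteDimensional ℝ U]
    (h : IsPosDef U) : Continuous (mag : FinSets U → ℝ) := by
  classical
  rw [Metric.continuous_iff]
  intro K ε hε
  have hne : K.2.toFinset.Nonempty := by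
    rw [Set.Finite.toFinset_nonempty]
    exact K.1.nonempty
  have h' : ∀ X : Finset U, (Pool.Agent.Lib.MP_e62a5f_gt.Zm X).PosDef := fun X => h X
  obtain ⟨δ, hδ, H⟩ := Pool.Agent.Lib.MP_e62a5f_gt.magnitude_continuous h' K.2.toFinset hne ε hε
  refine ⟨δ, hδ, ?_⟩
  intro K' hd
  have hne' : K'.2.toFinset.Nonempty := by
    rw [Set.Finite.toFinset_nonempty]
    exact K'.1.nonempty
  have h1 : Metric.hausdorffDist (K.2.toFinset : Set U) (K'.2.toFinset : Set U) < δ := by
    rw [Set.Finite.coe_toFinset, Set.Finite.coe_toFinset, Metric.hausdorffDist_comm]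
    exact hd
  have h2 := H K'.2.toFinset hne' h1
  have h3 : ∀ K : FinSets U, mag K = ∑ i, Pool.Agent.Lib.MP_e62a5f_gt.wt
      (Pool.Agent.Lib.MP_e62a5f_gt.Zm K.2.toFinset) i := by
    intro K
    unfold mag Pool.Agent.Lib.MP_e62a5f_gt.wt
    refine Finset.sum_congr rfl fun i _ => Finset.sum_congr rfl fun j _ => ?_
    congr!
  rw [Real.dist_eq, h3 K', h3 K]
  exact h2

end Pool.Agent.Results.MP_e62a5f_gt.HausdorffContinuity
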